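import Pool.Agent.H474.MS.Stm3

/-! K6a: convergence to the normal law (helper345 for helper474). -/

open MeasureTheory Filter Topology Set

namespace Pool.Agent.H345.MS.K6a

theorem t_K6a : Pool.Agent.H474.MS.S_K6a := by
  intro μ v m C h hv hm
  have key : ∀ t : ℝ, Tendsto (fun δ => charFun (μ δ : Measure ℝ) t) (𝓝[>] 0)
      (𝓝 (charFun (Pool.Agent.H474.MS.gaussN : Measure ℝ) t)) := by
    intro t
    have e0 : charFun (Pool.Agent.H474.MS.gaussN : Measure ℝ) t =
        Complex.exp (((-(1 * t ^ 2 / 2) : ℝ) : ℂ)) := by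
      have e1 : (Pool.Agent.H474.MS.gaussN : Measure ℝ) =
          ProbabilityTheory.gaussianReal 0 1 := rfl
      rw [e1, ProbabilityTheory.charFun_gaussianReal]
      congr 1
      push_cast
      ring
    rw [e0]
    have h1 : Tendsto (fun δ => Complex.exp (((-(v δ * t ^ 2 / 2) : ℝ) : ℂ))) (𝓝[>] 0)
        (𝓝 (Complex.exp (((-(1 * t ^ 2 / 2) : ℝ) : ℂ)))) := by
      refine (Complex.continuous_exp.tendsto _).comp ?_
      refine (Complex.continuous_ofReal.tendsto _).comp ?_
      exact ((hv.mul_const (t ^ 2)).div_const 2).neg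
    have h2 : Tendsto (fun δ => C * t ^ 4 * m δ * v δ) (𝓝[>] 0) (𝓝 0) := by
      have h3 := (hm.const_mul (C * t ^ 4)).mul hv
      rw [mul_zero, zero_mul] at h3
      exact h3
    have h3 : Tendsto (fun δ => charFun (μ δ : Measure ℝ) t -
        Complex.exp (((-(v δ * t ^ 2 / 2) : ℝ) : ℂ))) (𝓝[>] 0) (𝓝 0) := by
      refine squeeze_zero_norm' ?_ h2
      filter_upwards [self_mem_nhdsWithin] with δ hδ
      exact h δ hδ t
    have h4 := h3.add h1
    rw [zero_add] at h4
    refine h4.congr fun δ => ?_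
    ring
  refine tendsto_of_seq_tendsto fun x hx => ?_
  rw [ProbabilityMeasure.tendsto_iff_tendsto_charFun]
  exact fun t => (key t).comp hx

end Pool.Agent.H345.MS.K6a
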